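import Pool.Agent.H78.STN.Stmts

/-!
Row DIV of the board `stn`
-/

set_option autoImplicit false

open Polynomial

namespace Pool.STN

theorem div_pow (n i j : ℕ) (c e : ℤ) (he : e ≠ 0) (h : e ^ (3 * n) ∣ 3 ^ n * c * e ^ j) :
    ∃ w : ℤ, (3 : ℚ) ^ n * (c : ℚ) * (e : ℚ) ^ ((j : ℤ) + (-3 * n - 1 + i) + 1) = w := by
  obtain ⟨q, hq⟩ := h
  refine ⟨q * e ^ i, ?_⟩
  have he' : (e : ℚ) ≠ 0 := Int.cast_ne_zero.2 he
  have hq' : (3 : ℚ) ^ n * (c : ℚ) * (e : ℚ) ^ j = (e : ℚ) ^ (3 * n) * q := by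
    exact_mod_cast hq
  have h1 : (j : ℤ) + (-3 * n - 1 + i) + 1 = (j : ℤ) + (i : ℤ) - ((3 * n : ℕ) : ℤ) := by
    push_cast
    ring
  rw [h1, zpow_sub₀ he', zpow_add₀ he', zpow_natCast, zpow_natCast, zpow_natCast]
  have h2 : (e : ℚ) ^ (3 * n) ≠ 0 := pow_ne_zero _ he'
  push_cast
  rw [← mul_div_assoc, div_eq_iff h2]
  linear_combination (e : ℚ) ^ i * hq'

theorem div_term (h2 : INTStmt) (n i j : ℕ) (u v : ℤ) (hi : i ≤ 2) (hj : j ≤ 6 * n) :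
    ∃ w : ℤ, ((3 ^ n * Nat.lcmUpto (3 * n + 2) : ℕ) : ℚ) *
      ((((Pz ^ n).coeff j : ℤ) : ℚ) * ph u v ((j : ℤ) + (-3 * n - 1 + i) + 1)) = w := by
  obtain ⟨m, hm⟩ : ∃ m : ℤ, m = (j : ℤ) + (-3 * n - 1 + i) + 1 := ⟨_, rfl⟩
  by_cases hm0 : m = 0
  · refine ⟨0, ?_⟩
    rw [← hm, hm0]
    unfold ph
    rw [Int.cast_zero, div_zero, mul_zero, mul_zero]
  · have hdvd : m ∣ ((Nat.lcmUpto (3 * n + 2) : ℕ) : ℤ) := by
      rw [← Int.natAbs_dvd, Int.natCast_dvd_natCast]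
      unfold Nat.lcmUpto
      have hmem : m.natAbs ∈ Finset.Icc 1 (3 * n + 2) := by
        rw [Finset.mem_Icc]
        omega
      exact Finset.dvd_lcm hmem
    obtain ⟨t, ht⟩ := hdvd
    have ht' : ((Nat.lcmUpto (3 * n + 2) : ℕ) : ℚ) = (m : ℚ) * t := by
      have := congrArg (Int.cast : ℤ → ℚ) ht
      push_cast at this
      exact this
    obtain ⟨w6, h6⟩ := div_pow n i j _ 6 (by norm_num) (h2 n j 6 (Or.inl rfl))
    obtain ⟨w8, h8⟩ := div_pow n i j _ 8 (by norm_num) (h2 n j 8 (Or.inr (Or.inl rfl)))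
    obtain ⟨w9, h9⟩ := div_pow n i j _ 9 (by norm_num) (h2 n j 9 (Or.inr (Or.inr rfl)))
    rw [← hm] at h6 h8 h9 ⊢
    refine ⟨t * (-u * w6 + (u - v) * w8 + v * w9), ?_⟩
    have hmq : (m : ℚ) ≠ 0 := Int.cast_ne_zero.2 hm0
    unfold ph
    push_cast at h6 h8 h9 ⊢
    rw [ht', ← h6, ← h8, ← h9]
    field_simp

theorem DIV_thm (h1 : PZQStmt) (h2 : INTStmt) : DIVStmt := by
  intro n i u v _ hi
  unfold Nn Polynomial.sum
  rw [Finset.mul_sum]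
  have key : ∀ s : Finset ℕ, (∀ j ∈ s, j ≤ 6 * n) → ∃ z : ℤ,
      ∑ j ∈ s, ((3 ^ n * Nat.lcmUpto (3 * n + 2) : ℕ) : ℚ) *
        ((Pq ^ n).coeff j * ph u v ((j : ℤ) + (-3 * n - 1 + i) + 1)) = z := by
    intro s
    induction s using Finset.induction_on with
    | empty => exact fun _ => ⟨0, by simp⟩
    | insert a s ha ih =>
      intro hs
      obtain ⟨z, hz⟩ := ih fun j hj => hs j (Finset.mem_insert_of_mem hj)
      obtain ⟨w, hw⟩ := div_term h2 n i a u v hi (hs a (Finset.mem_insert_self a s))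
      refine ⟨w + z, ?_⟩
      rw [Finset.sum_insert ha, hz, (h1 n a).1, hw]
      push_cast
      rfl
  refine key _ ?_
  intro j hj
  by_contra hlt
  rw [Polynomial.mem_support_iff, (h1 n j).1, (h1 n j).2 (by omega)] at hj
  exact hj (by norm_num)

end Pool.STN
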