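import Pool.Agent.H78.STN.Stmts

/-!
Row MUL of the board `stn`
-/

set_option autoImplicit false

open Finset

namespace Pool.STN

theorem mul_log (p N b : ℕ) (hp : 1 < p) (hb : p.log N < b) :
    p.log N = ∑ i ∈ Ico 1 b, if p ^ i ≤ N then 1 else 0 := by
  rcases Nat.eq_zero_or_pos N with rfl | hN
  · rw [Nat.log_zero_right]
    symm
    refine Finset.sum_eq_zero fun i _ => ?_
    rw [if_neg]
    have := Nat.pow_pos (n := i) (show 0 < p by omega)
    omega
  · rw [← Finset.sum_filter, Finset.sum_const, smul_eq_mul, mul_one]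
    have h : (Ico 1 b).filter (fun i => p ^ i ≤ N) = Ico 1 (p.log N + 1) := by
      ext i
      rw [mem_filter, mem_Ico, mem_Ico, ← Nat.le_log_iff_pow_le hp (by omega)]
      omega
    rw [h, Nat.card_Ico]
    omega

theorem mul_term (n q : ℕ) (hq : 0 < q) :
    (if q ≤ 6 * n then 1 else 0) + (3 * n / q + 2 * n / q + n / q) ≤
      (if q ≤ n then 1 else 0) + 6 * n / q := by
  have h3 := Nat.div_mul_le_self (3 * n) q
  have h2 := Nat.div_mul_le_self (2 * n) q
  have h1 := Nat.div_mul_le_self n q
  by_cases hqn : q ≤ n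
  · rw [if_pos hqn, if_pos (by omega)]
    have : 3 * n / q + 2 * n / q + n / q ≤ 6 * n / q := by
      rw [Nat.le_div_iff_mul_le hq, add_mul, add_mul]
      omega
    omega
  · rw [if_neg hqn]
    have h0 : n / q = 0 := Nat.div_eq_of_lt (by omega)
    rw [h0]
    by_cases h6 : q ≤ 6 * n
    · rw [if_pos h6]
      have hx : 3 * n / q < 3 := by
        rw [Nat.div_lt_iff_lt_mul hq]
        omega
      have hy : 2 * n / q < 2 := by
        rw [Nat.div_lt_iff_lt_mul hq]
        omega
      obtain ⟨x, hxd⟩ : ∃ x, x = 3 * n / q := ⟨_, rfl⟩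
      obtain ⟨y, hyd⟩ : ∃ y, y = 2 * n / q := ⟨_, rfl⟩
      rw [← hxd] at hx h3 ⊢
      rw [← hyd] at hy h2 ⊢
      have : x + y + 1 ≤ 6 * n / q := by
        rw [Nat.le_div_iff_mul_le hq]
        interval_cases x
        · interval_cases y
          · omega
          · omega
        · interval_cases y
          · omega
          · omega
        · interval_cases y
          · omega
          · omega
      omega
    · rw [if_neg h6]
      have : 3 * n / q + 2 * n / q ≤ 6 * n / q := by
        rw [Nat.le_div_iff_mul_le hq, add_mul]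
        omega
      omega

theorem MUL_thm : MULStmt := by
  intro n
  have a1 : Nat.lcmUpto (6 * n) ≠ 0 := Nat.lcmUpto_ne_zero _
  have a2 : Nat.lcmUpto n ≠ 0 := Nat.lcmUpto_ne_zero _
  have b3 : (3 * n).factorial ≠ 0 := Nat.factorial_ne_zero _
  have b2 : (2 * n).factorial ≠ 0 := Nat.factorial_ne_zero _
  have b1 : n.factorial ≠ 0 := Nat.factorial_ne_zero _
  have b6 : (6 * n).factorial ≠ 0 := Nat.factorial_ne_zero _
  rw [← Nat.factorization_prime_le_iff_dvd (mul_ne_zero a1 (mul_ne_zero (mul_ne_zero b3 b2) b1))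
    (mul_ne_zero a2 b6)]
  intro p hp
  obtain ⟨b, hb⟩ : ∃ b, b = p.log (6 * n) + 1 := ⟨_, rfl⟩
  have hlog : ∀ m : ℕ, m ≤ 6 * n → p.log m < b := by
    intro m hm
    rw [hb]
    exact Nat.lt_succ_of_le (Nat.log_mono_right hm)
  rw [Nat.factorization_mul a1 (mul_ne_zero (mul_ne_zero b3 b2) b1),
    Nat.factorization_mul (mul_ne_zero b3 b2) b1, Nat.factorization_mul b3 b2,
    Nat.factorization_mul a2 b6]
  simp only [Finsupp.add_apply]
  rw [Nat.factorization_lcmUpto _ hp, Nat.factorization_lcmUpto _ hp,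
    Nat.factorization_factorial hp (hlog (3 * n) (by omega)),
    Nat.factorization_factorial hp (hlog (2 * n) (by omega)),
    Nat.factorization_factorial hp (hlog n (by omega)),
    Nat.factorization_factorial hp (hlog (6 * n) le_rfl),
    mul_log p (6 * n) b hp.one_lt (hlog (6 * n) le_rfl),
    mul_log p n b hp.one_lt (hlog n (by omega)),
    ← Finset.sum_add_distrib, ← Finset.sum_add_distrib, ← Finset.sum_add_distrib,
    ← Finset.sum_add_distrib]
  exact Finset.sum_le_sum fun i _ => mul_term n (p ^ i) (Nat.pow_pos hp.pos)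

end Pool.STN
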